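import Mathlib
import Pool.Agent.R539.SD.Stm

set_option autoImplicit false

namespace Pool.Agent.R334.SD

open Pool.Agent.NPC Pool.Agent.R544 Pool.Agent.R539.SD

/-- the arcs -/
inductive Arc (n r : ℕ) (φ : N3) : Vx → Vx → Prop
  | a1 (s t : ℕ) : 1 ≤ s → s ≤ r → t ≤ r → Arc n r φ (4, s, t) (4, s, t + 1)
  | a2 (i s : ℕ) : i < n → s ≤ r → Arc n r φ (3, i, s) (3, i, s + 1)
  | a3 (i s : ℕ) : i < n → 1 ≤ s → s ≤ r → Arc n r φ (4, s, r + 1) (3, i, s)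
  | a4 (i s : ℕ) : 1 ≤ s → s ≤ r → Arc n r φ (3, i, s) (4, s, 0)
  | a5 (i : ℕ) : i + 1 < n → Arc n r φ (3, i, r + 1) (3, i + 1, 0)
  | a5' (i : ℕ) : i + 1 < n → Arc n r φ (3, i, r + 1) (3, i + 1, r + 1)
  | a6 (i t : ℕ) : Arc n r φ (3, i + 1, t) (3, i, 0)
  | a7 (j v c : ℕ) : Arc n r φ (0, v, 0) (1, j, c)
  | a8 (j c : ℕ) : j < φ.length → c ≤ 1 → Arc n r φ (1, j, c) (1, j, c + 1)
  | a9 (q : ℕ) : q < 4 * φ.length → Arc n r φ (3, n - 1, r + 1) (2, q, 0)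
  | a10 (q : ℕ) : Arc n r φ (2, q, 0) (3, n - 1, 0)
  | l0 (j : ℕ) : j < φ.length → Arc n r φ (1, j, 0) (2, 4 * j, 0)
  | l1 (j : ℕ) : j < φ.length → Arc n r φ (1, j, 1) (2, 4 * j + 1, 0)
  | l2 (j : ℕ) : j < φ.length → Arc n r φ (1, j, 2) (2, 4 * j + 2, 0)
  | l3 (j : ℕ) : j < φ.length → Arc n r φ (1, j, 2) (2, 4 * j + 3, 0)
  | f0 (j : ℕ) : j < φ.length → Arc n r φ (2, 4 * j, r) (0, (tr φ j).1, 0)
  | f1 (j : ℕ) : j < φ.length → Arc n r φ (2, 4 * j + 1, r) (0, (tr φ j).2.1, 0)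
  | f2 (j : ℕ) : j < φ.length → Arc n r φ (2, 4 * j + 2, r) (0, (tr φ j).2.2, 0)
  | f3 (j : ℕ) : j < φ.length → Arc n r φ (2, 4 * j + 3, r) (1, j, 0)
  | a14 (q s : ℕ) : s < r → Arc n r φ (2, q, s) (2, q, s + 1)
  | a15 (q s : ℕ) : q < 4 * φ.length → 1 ≤ s → s ≤ r → Arc n r φ (4, s, r + 1) (2, q, s)
  | a16 (q s : ℕ) : Arc n r φ (2, q, s) (4, s, 0)

lemma con_mem (n r q : ℕ) (f l x y : Vx) (h : (x, y) ∈ conArcs n r q f l) :
    (x = (3, n - 1, r + 1) ∧ y = (2, q, 0)) ∨ (x = (2, q, 0) ∧ y = (3, n - 1, 0)) ∨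
    (x = l ∧ y = (2, q, 0)) ∨ (x = (2, q, r) ∧ y = f) ∨
    (∃ s < r, x = (2, q, s) ∧ y = (2, q, s + 1)) ∨
    (∃ s < r, x = (4, s + 1, r + 1) ∧ y = (2, q, s + 1)) ∨
    (∃ s < r, x = (2, q, s + 1) ∧ y = (4, s + 1, 0)) := by
  simp only [conArcs, List.mem_append, List.mem_cons, List.not_mem_nil, or_false,
    List.mem_map, List.mem_range, List.mem_flatMap, lev] at h
  rcases h with (h | h | h | h) | ⟨s, hs, h⟩ | ⟨s, hs, h | h⟩
  · exact Or.inl (Prod.mk.inj h)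
  · exact Or.inr (Or.inl (Prod.mk.inj h))
  · exact Or.inr (Or.inr (Or.inl (Prod.mk.inj h)))
  · exact Or.inr (Or.inr (Or.inr (Or.inl (Prod.mk.inj h))))
  · exact Or.inr (Or.inr (Or.inr (Or.inr (Or.inl ⟨s, hs, Prod.mk.inj h.symm⟩))))
  · exact Or.inr (Or.inr (Or.inr (Or.inr (Or.inr (Or.inl ⟨s, hs, Prod.mk.inj h⟩)))))
  · exact Or.inr (Or.inr (Or.inr (Or.inr (Or.inr (Or.inr ⟨s, hs, Prod.mk.inj h⟩)))))

lemma con_arc (n r q : ℕ) (φ : N3) (f l x y : Vx) (hq : q < 4 * φ.length)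
    (h : (x, y) ∈ conArcs n r q f l) :
    Arc n r φ x y ∨ (x = l ∧ y = (2, q, 0)) ∨ (x = (2, q, r) ∧ y = f) := by
  rcases con_mem n r q f l x y h with ⟨rfl, rfl⟩ | ⟨rfl, rfl⟩ | h | h | ⟨s, hs, rfl, rfl⟩ |
    ⟨s, hs, rfl, rfl⟩ | ⟨s, hs, rfl, rfl⟩
  · exact Or.inl (Arc.a9 q hq)
  · exact Or.inl (Arc.a10 q)
  · exact Or.inr (Or.inl h)
  · exact Or.inr (Or.inr h)
  · exact Or.inl (Arc.a14 q s hs)
  · exact Or.inl (Arc.a15 q (s + 1) hq (by omega) (by omega))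
  · exact Or.inl (Arc.a16 q (s + 1))

lemma arc_of (n r : ℕ) (φ : N3) (x y : Vx) (h : (x, y) ∈ lowDg n r φ) : Arc n r φ x y := by
  simp only [lowDg, constArcs, clauseArcs, List.mem_append, List.mem_flatMap,
    List.mem_range] at h
  rcases h with ((⟨s, hs, h⟩ | ⟨i, hi, h⟩) | ⟨i, hi, h⟩) | ⟨j, hj, h⟩
  · simp only [hubArcs, List.mem_map, List.mem_range] at h
    obtain ⟨t, ht, h⟩ := h
    obtain ⟨h1, h2⟩ := Prod.mk.inj h.symm
    rw [h1, h2]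
    exact Arc.a1 (s + 1) t (by omega) (by omega) (by omega)
  · simp only [pairArcs, lev, List.mem_append, List.mem_map, List.mem_range, List.mem_flatMap,
      List.mem_cons, List.not_mem_nil, or_false] at h
    rcases h with ⟨s, hs, h⟩ | ⟨s, hs, h | h⟩
    · obtain ⟨h1, h2⟩ := Prod.mk.inj h.symm
      rw [h1, h2]
      exact Arc.a2 i s hi (by omega)
    · obtain ⟨h1, h2⟩ := Prod.mk.inj h
      rw [h1, h2]
      exact Arc.a3 i (s + 1) hi (by omega) (by omega)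
    · obtain ⟨h1, h2⟩ := Prod.mk.inj h
      rw [h1, h2]
      exact Arc.a4 i (s + 1) (by omega) (by omega)
  · simp only [linkArcs, List.mem_cons, List.not_mem_nil, or_false] at h
    rcases h with h | h | h | h
    · obtain ⟨h1, h2⟩ := Prod.mk.inj h
      rw [h1, h2]
      exact Arc.a5 i (by omega)
    · obtain ⟨h1, h2⟩ := Prod.mk.inj h
      rw [h1, h2]
      exact Arc.a6 i 0
    · obtain ⟨h1, h2⟩ := Prod.mk.inj h
      rw [h1, h2]
      exact Arc.a5' i (by omega)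
    · obtain ⟨h1, h2⟩ := Prod.mk.inj h
      rw [h1, h2]
      exact Arc.a6 i (r + 1)
  · rcases h with h | h | h | h | h
    · simp only [List.mem_cons, List.not_mem_nil, or_false] at h
      rcases h with h | h | h | h | h
      · obtain ⟨h1, h2⟩ := Prod.mk.inj h
        rw [h1, h2]
        exact Arc.a7 j _ 0
      · obtain ⟨h1, h2⟩ := Prod.mk.inj h
        rw [h1, h2]
        exact Arc.a7 j _ 1
      · obtain ⟨h1, h2⟩ := Prod.mk.inj h
        rw [h1, h2]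
        exact Arc.a7 j _ 2
      · obtain ⟨h1, h2⟩ := Prod.mk.inj h
        rw [h1, h2]
        exact Arc.a8 j 0 hj (by omega)
      · obtain ⟨h1, h2⟩ := Prod.mk.inj h
        rw [h1, h2]
        exact Arc.a8 j 1 hj (by omega)
    · rcases con_arc n r _ φ _ _ _ _ (by omega) h with h | ⟨rfl, rfl⟩ | ⟨rfl, rfl⟩
      · exact h
      · exact Arc.l0 j hj
      · exact Arc.f0 j hj
    · rcases con_arc n r _ φ _ _ _ _ (by omega) h with h | ⟨rfl, rfl⟩ | ⟨rfl, rfl⟩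
      · exact h
      · exact Arc.l1 j hj
      · exact Arc.f1 j hj
    · rcases con_arc n r _ φ _ _ _ _ (by omega) h with h | ⟨rfl, rfl⟩ | ⟨rfl, rfl⟩
      · exact h
      · exact Arc.l2 j hj
      · exact Arc.f2 j hj
    · rcases con_arc n r _ φ _ _ _ _ (by omega) h with h | ⟨rfl, rfl⟩ | ⟨rfl, rfl⟩
      · exact h
      · exact Arc.l3 j hj
      · exact Arc.f3 j hj

section
variable {n r : ℕ} {φ : N3}

lemma s4 {s t : ℕ} {y : Vx} (h : Arc n r φ (4, s, t) y) (ht : t ≤ r) : y = (4, s, t + 1) := by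
  generalize hx : ((4, s, t) : Vx) = x at h
  cases h <;> simp only [Prod.mk.injEq] at hx
  case a1 s' t' h1 h2 h3 =>
    obtain ⟨-, rfl, rfl⟩ := hx
    rfl
  all_goals (exfalso; omega)

lemma p4 {s t : ℕ} {x : Vx} (h : Arc n r φ x (4, s, t + 1)) : x = (4, s, t) := by
  generalize hy : ((4, s, t + 1) : Vx) = y at h
  cases h <;> simp only [Prod.mk.injEq] at hy
  case a1 s' t' h1 h2 h3 =>
    obtain ⟨-, rfl, h4⟩ := hy
    obtain rfl : t = t' := by omega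
    rfl
  all_goals (exfalso; omega)

lemma s4' {s : ℕ} {y : Vx} (h : Arc n r φ (4, s, r + 1) y) :
    1 ≤ s ∧ s ≤ r ∧ ((∃ i < n, y = (3, i, s)) ∨ ∃ q < 4 * φ.length, y = (2, q, s)) := by
  generalize hx : ((4, s, r + 1) : Vx) = x at h
  cases h <;> simp only [Prod.mk.injEq] at hx
  case a3 i s' hi h1 h2 =>
    obtain ⟨-, rfl, -⟩ := hx
    exact ⟨h1, h2, Or.inl ⟨i, hi, rfl⟩⟩
  case a15 q s' hq h1 h2 =>
    obtain ⟨-, rfl, -⟩ := hx
    exact ⟨h1, h2, Or.inr ⟨q, hq, rfl⟩⟩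
  all_goals (exfalso; omega)

lemma s3 {i s : ℕ} {y : Vx} (h : Arc n r φ (3, i, s) y) (hs : s ≤ r) :
    y = (3, i, s + 1) ∨ y.1 = 4 ∨ (y.1 = 3 ∧ y.2.1 < i) := by
  generalize hx : ((3, i, s) : Vx) = x at h
  cases h <;> simp only [Prod.mk.injEq] at hx
  case a2 i' s' h1 h2 =>
    obtain ⟨-, rfl, rfl⟩ := hx
    exact Or.inl rfl
  case a4 i' s' h1 h2 => exact Or.inr (Or.inl rfl)
  case a6 i' t' =>
    obtain ⟨-, rfl, rfl⟩ := hx
    exact Or.inr (Or.inr ⟨rfl, Nat.lt_succ_self _⟩)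
  all_goals (exfalso; omega)

lemma p3 {i s : ℕ} {x : Vx} (h : Arc n r φ x (3, i, s + 1)) :
    x = (3, i, s) ∨ x.1 = 4 ∨ (x.1 = 3 ∧ x.2.1 < i) := by
  generalize hy : ((3, i, s + 1) : Vx) = y at h
  cases h <;> simp only [Prod.mk.injEq] at hy
  case a2 i' s' h1 h2 =>
    obtain ⟨-, rfl, h4⟩ := hy
    obtain rfl : s = s' := by omega
    exact Or.inl rfl
  case a3 i' s' h1 h2 h3 => exact Or.inr (Or.inl rfl)
  case a5' i' hi =>
    obtain ⟨-, rfl, h4⟩ := hy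
    exact Or.inr (Or.inr ⟨rfl, Nat.lt_succ_self _⟩)
  all_goals (exfalso; omega)

lemma s3' {i : ℕ} {y : Vx} (h : Arc n r φ (3, i, r + 1) y) :
    (i + 1 < n ∧ (y = (3, i + 1, 0) ∨ y = (3, i + 1, r + 1))) ∨ (y.1 = 3 ∧ y.2.1 < i) ∨
      (i = n - 1 ∧ ∃ q < 4 * φ.length, y = (2, q, 0)) := by
  generalize hx : ((3, i, r + 1) : Vx) = x at h
  cases h <;> simp only [Prod.mk.injEq] at hx
  case a5 i' hi =>
    obtain ⟨-, rfl, -⟩ := hx
    exact Or.inl ⟨hi, Or.inl rfl⟩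
  case a5' i' hi =>
    obtain ⟨-, rfl, -⟩ := hx
    exact Or.inl ⟨hi, Or.inr rfl⟩
  case a6 i' t =>
    obtain ⟨-, rfl, -⟩ := hx
    exact Or.inr (Or.inl ⟨rfl, Nat.lt_succ_self _⟩)
  case a9 q hq =>
    obtain ⟨-, rfl, -⟩ := hx
    exact Or.inr (Or.inr ⟨rfl, q, hq, rfl⟩)
  all_goals (exfalso; omega)

lemma p0 {x y : Vx} (h : Arc n r φ x y) (hy : y.1 = 0) : ∃ j < φ.length,
    (x = (2, 4 * j, r) ∧ y = (0, (tr φ j).1, 0)) ∨
    (x = (2, 4 * j + 1, r) ∧ y = (0, (tr φ j).2.1, 0)) ∨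
    (x = (2, 4 * j + 2, r) ∧ y = (0, (tr φ j).2.2, 0)) := by
  cases h
  case f0 j hj => exact ⟨j, hj, Or.inl ⟨rfl, rfl⟩⟩
  case f1 j hj => exact ⟨j, hj, Or.inr (Or.inl ⟨rfl, rfl⟩)⟩
  case f2 j hj => exact ⟨j, hj, Or.inr (Or.inr ⟨rfl, rfl⟩)⟩
  all_goals (exfalso; simp only at hy; omega)

lemma p2 {q s : ℕ} {x : Vx} (h : Arc n r φ x (2, q, s + 1)) : x = (2, q, s) ∨ x.1 = 4 := by
  generalize hy : ((2, q, s + 1) : Vx) = y at h
  cases h <;> simp only [Prod.mk.injEq] at hy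
  case a14 q' s' hs' =>
    obtain ⟨-, rfl, h4⟩ := hy
    obtain rfl : s = s' := by omega
    exact Or.inl rfl
  case a15 q' s' h1 h2 h3 => exact Or.inr rfl
  all_goals (exfalso; omega)

lemma p20 {q : ℕ} {x : Vx} (h : Arc n r φ x (2, q, 0)) : x.1 = 3 ∨ x.1 = 4 ∨ ∃ j,
    (q = 4 * j ∧ x = (1, j, 0)) ∨ (q = 4 * j + 1 ∧ x = (1, j, 1)) ∨
    (q = 4 * j + 2 ∧ x = (1, j, 2)) ∨ (q = 4 * j + 3 ∧ x = (1, j, 2)) := by
  generalize hy : ((2, q, 0) : Vx) = y at h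
  cases h <;> simp only [Prod.mk.injEq] at hy
  case a9 q' hq => exact Or.inl rfl
  case a15 q' s hq h1 h2 => exact Or.inr (Or.inl rfl)
  case l0 j hj => exact Or.inr (Or.inr ⟨j, Or.inl ⟨hy.2.1, rfl⟩⟩)
  case l1 j hj => exact Or.inr (Or.inr ⟨j, Or.inr (Or.inl ⟨hy.2.1, rfl⟩)⟩)
  case l2 j hj => exact Or.inr (Or.inr ⟨j, Or.inr (Or.inr (Or.inl ⟨hy.2.1, rfl⟩))⟩)
  case l3 j hj => exact Or.inr (Or.inr ⟨j, Or.inr (Or.inr (Or.inr ⟨hy.2.1, rfl⟩))⟩)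
  all_goals (exfalso; omega)

lemma s2 {q s : ℕ} {y : Vx} (h : Arc n r φ (2, q, s) y) : y.1 = 3 ∨ y.1 = 4 ∨ y.1 = 0 ∨
    (∃ j < φ.length, y = (1, j, 0)) ∨ (s < r ∧ y = (2, q, s + 1)) := by
  generalize hx : ((2, q, s) : Vx) = x at h
  cases h <;> simp only [Prod.mk.injEq] at hx
  case a10 q' => exact Or.inl rfl
  case f0 j hj => exact Or.inr (Or.inr (Or.inl rfl))
  case f1 j hj => exact Or.inr (Or.inr (Or.inl rfl))
  case f2 j hj => exact Or.inr (Or.inr (Or.inl rfl))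
  case f3 j hj => exact Or.inr (Or.inr (Or.inr (Or.inl ⟨j, hj, rfl⟩)))
  case a14 q' s' hs' =>
    obtain ⟨-, rfl, rfl⟩ := hx
    exact Or.inr (Or.inr (Or.inr (Or.inr ⟨hs', rfl⟩)))
  case a16 q' s' => exact Or.inr (Or.inl rfl)
  all_goals (exfalso; omega)

lemma p1 {j c : ℕ} {x : Vx} (h : Arc n r φ x (1, j, c)) : x.1 = 0 ∨
    (1 ≤ c ∧ x = (1, j, c - 1)) ∨ (c = 0 ∧ j < φ.length ∧ x = (2, 4 * j + 3, r)) := by
  generalize hy : ((1, j, c) : Vx) = y at h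
  cases h <;> simp only [Prod.mk.injEq] at hy
  case a7 j' v c' => exact Or.inl rfl
  case a8 j' c' h1 h2 =>
    obtain ⟨-, rfl, h4⟩ := hy
    refine Or.inr (Or.inl ⟨by omega, ?_⟩)
    rw [h4, Nat.add_sub_cancel]
  case f3 j' hj =>
    obtain ⟨-, rfl, h4⟩ := hy
    exact Or.inr (Or.inr ⟨h4, hj, rfl⟩)
  all_goals (exfalso; omega)

lemma kinds {x y : Vx} (h : Arc n r φ x y) : x.1 ≤ 4 := by
  cases h <;> simp only <;> omega

end

lemma down {P : ℕ → Prop} (h : ∀ t, P (t + 1) → P t) : ∀ T, P T → ∀ t ≤ T, P t := by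
  intro T
  induction T with
  | zero =>
    intro h0 t ht
    have : t = 0 := by omega
    rw [this]; exact h0
  | succ T ih =>
    intro h0 t ht
    rcases Nat.lt_or_ge t (T + 1) with h1 | h1
    · exact ih (h T h0) t (by omega)
    · have : t = T + 1 := by omega
      rw [this]; exact h0

lemma up {P : ℕ → Prop} {r : ℕ} (h0 : P 0) (h : ∀ t ≤ r, P t → P (t + 1)) :
    ∀ t ≤ r + 1, P t := by
  intro t
  induction t with
  | zero => intro _; exact h0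
  | succ t ih =>
    intro ht
    exact h t (by omega) (ih (by omega))

lemma hmono {k g : ℕ} {C : Vx → ℕ} {A Y : Set Vx} (h : Hit k g C A) (hAY : A ⊆ Y) :
    Hit k g C Y := by
  intro y hy
  obtain ⟨v, hv, hw⟩ := h y hy
  exact ⟨v, hAY hv, hw⟩

theorem scyc : SCYC := by
  intro n r φ k g C _ hK Y hY
  obtain ⟨⟨v0, hv0⟩, hsuc', hpre'⟩ := hY
  have hsuc : ∀ v ∈ Y, ∃ u ∈ Y, Arc n r φ v u := fun v hv => by
    obtain ⟨u, hu, h⟩ := hsuc' v hv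
    exact ⟨u, hu, arc_of n r φ v u h⟩
  have hpre : ∀ v ∈ Y, ∃ u ∈ Y, Arc n r φ u v := fun v hv => by
    obtain ⟨u, hu, h⟩ := hpre' v hv
    exact ⟨u, hu, arc_of n r φ u v h⟩
  by_cases h4 : ∃ v ∈ Y, v.1 = 4
  · obtain ⟨⟨a, s, t⟩, hv, ha⟩ := h4
    simp only at ha
    subst ha
    have hd : ∀ t' ≤ t, ((4, s, t') : Vx) ∈ Y := by
      apply down (P := fun t' => ((4, s, t') : Vx) ∈ Y) _ t hv
      intro t' ht'
      obtain ⟨u, hu, hA⟩ := hpre _ ht'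
      rw [p4 hA] at hu
      exact hu
    have hu : ∀ t' ≤ r + 1, ((4, s, t') : Vx) ∈ Y := by
      apply up (P := fun t' => ((4, s, t') : Vx) ∈ Y) (hd 0 (Nat.zero_le _))
      intro t' ht' hm
      obtain ⟨u, hu, hA⟩ := hsuc _ hm
      rw [s4 hA ht'] at hu
      exact hu
    obtain ⟨y, hy, hA⟩ := hsuc _ (hu (r + 1) le_rfl)
    obtain ⟨h1, h2, h3⟩ := s4' hA
    have hch : chn 4 s (r + 1) ⊆ Y := by
      rintro v ⟨t', ht', rfl⟩
      exact hu t' ht'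
    rcases h3 with ⟨i, hi, rfl⟩ | ⟨q, hq, rfl⟩
    · exact hmono (hK.hub3 s h1 h2 i hi) (Set.union_subset hch (Set.singleton_subset_iff.2 hy))
    · exact hmono (hK.hub2 s h1 h2 q hq) (Set.union_subset hch (Set.singleton_subset_iff.2 hy))
  by_cases h3 : ∃ i t : ℕ, ((3, i, t) : Vx) ∈ Y
  · classical
    obtain ⟨t, ht⟩ := Nat.find_spec h3
    set i := Nat.find h3 with hi
    have hmin : ∀ v ∈ Y, ¬ (v.1 = 3 ∧ v.2.1 < i) := by
      rintro ⟨a, b, c⟩ hv ⟨ha, hb⟩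
      simp only at ha hb
      subst ha
      exact Nat.find_min h3 hb ⟨c, hv⟩
    have hd : ∀ t' ≤ t, ((3, i, t') : Vx) ∈ Y := by
      apply down (P := fun t' => ((3, i, t') : Vx) ∈ Y) _ t ht
      intro t' ht'
      obtain ⟨u, hu, hA⟩ := hpre _ ht'
      rcases p3 hA with h | h | h
      · rw [h] at hu; exact hu
      · exact absurd ⟨u, hu, h⟩ h4
      · exact absurd h (hmin u hu)
    have hu : ∀ t' ≤ r + 1, ((3, i, t') : Vx) ∈ Y := by
      apply up (P := fun t' => ((3, i, t') : Vx) ∈ Y) (hd 0 (Nat.zero_le _))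
      intro t' ht' hm
      obtain ⟨u, hu, hA⟩ := hsuc _ hm
      rcases s3 hA ht' with h | h | h
      · rw [h] at hu; exact hu
      · exact absurd ⟨u, hu, h⟩ h4
      · exact absurd h (hmin u hu)
    have hch : chn 3 i (r + 1) ⊆ Y := by
      rintro v ⟨t', ht', rfl⟩
      exact hu t' ht'
    obtain ⟨y, hy, hA⟩ := hsuc _ (hu (r + 1) le_rfl)
    rcases s3' hA with ⟨h1, h2 | h2⟩ | h | ⟨h1, q, hq, h2⟩
    · rw [h2] at hy
      exact hmono (hK.link0 i h1) (Set.union_subset hch (Set.singleton_subset_iff.2 hy))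
    · rw [h2] at hy
      exact hmono (hK.link1 i h1) (Set.union_subset hch (Set.singleton_subset_iff.2 hy))
    · exact absurd h (hmin y hy)
    · rw [h2] at hy
      rw [h1] at hch
      exact hmono (hK.frame q hq) (Set.union_subset hch (Set.singleton_subset_iff.2 hy))
  have h3' : ∀ v ∈ Y, v.1 ≠ 3 := by
    rintro ⟨a, b, c⟩ hv ha
    simp only at ha
    subst ha
    exact h3 ⟨b, c, hv⟩
  have h4' : ∀ v ∈ Y, v.1 ≠ 4 := fun v hv ha => h4 ⟨v, hv, ha⟩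
  have hdn : ∀ q, ((2, q, r) : Vx) ∈ Y → chn 2 q r ⊆ Y := by
    intro q hq
    have hd : ∀ t' ≤ r, ((2, q, t') : Vx) ∈ Y := by
      apply down (P := fun t' => ((2, q, t') : Vx) ∈ Y) _ r hq
      intro t' ht'
      obtain ⟨u, hu, hA⟩ := hpre _ ht'
      rcases p2 hA with h | h
      · rw [h] at hu; exact hu
      · exact absurd h (h4' u hu)
    rintro v ⟨t', ht', rfl⟩
    exact hd t' ht'
  have hlast : ∀ q, ((2, q, r) : Vx) ∈ Y → ∃ j,
      (q = 4 * j ∧ ((1, j, 0) : Vx) ∈ Y) ∨ (q = 4 * j + 1 ∧ ((1, j, 1) : Vx) ∈ Y) ∨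
      (q = 4 * j + 2 ∧ ((1, j, 2) : Vx) ∈ Y) ∨ (q = 4 * j + 3 ∧ ((1, j, 2) : Vx) ∈ Y) := by
    intro q hq
    obtain ⟨u, hu, hA⟩ := hpre _ (hdn q hq ⟨0, Nat.zero_le _, rfl⟩)
    rcases p20 hA with h | h | ⟨j, ⟨h, rfl⟩ | ⟨h, rfl⟩ | ⟨h, rfl⟩ | ⟨h, rfl⟩⟩
    · exact absurd h (h3' u hu)
    · exact absurd h (h4' u hu)
    · exact ⟨j, Or.inl ⟨h, hu⟩⟩
    · exact ⟨j, Or.inr (Or.inl ⟨h, hu⟩)⟩
    · exact ⟨j, Or.inr (Or.inr (Or.inl ⟨h, hu⟩))⟩
    · exact ⟨j, Or.inr (Or.inr (Or.inr ⟨h, hu⟩))⟩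
  by_cases h0 : ∃ v ∈ Y, v.1 = 0
  · obtain ⟨v, hv, hv0'⟩ := h0
    obtain ⟨u, hu, hA⟩ := hpre v hv
    obtain ⟨j, hj, ⟨rfl, rfl⟩ | ⟨rfl, rfl⟩ | ⟨rfl, rfl⟩⟩ := p0 hA hv0'
    · obtain ⟨j', h | h | h | h⟩ := hlast _ hu
      · have hjj : j' = j := by omega
        rw [hjj] at h
        refine hmono (hK.con0 j hj) (Set.union_subset (hdn _ hu) ?_)
        rintro w (rfl | rfl)
        · exact hv
        · exact h.2
      all_goals (exfalso; omega)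
    · obtain ⟨j', h | h | h | h⟩ := hlast _ hu
      · exfalso; omega
      · have hjj : j' = j := by omega
        rw [hjj] at h
        refine hmono (hK.con1 j hj) (Set.union_subset (hdn _ hu) ?_)
        rintro w (rfl | rfl)
        · exact hv
        · exact h.2
      all_goals (exfalso; omega)
    · obtain ⟨j', h | h | h | h⟩ := hlast _ hu
      · exfalso; omega
      · exfalso; omega
      · have hjj : j' = j := by omega
        rw [hjj] at h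
        refine hmono (hK.con2 j hj) (Set.union_subset (hdn _ hu) ?_)
        rintro w (rfl | rfl)
        · exact hv
        · exact h.2
      · exfalso; omega
  have h0' : ∀ v ∈ Y, v.1 ≠ 0 := fun v hv ha => h0 ⟨v, hv, ha⟩
  -- an occurrence in `Y` gives the end of a chain
  have hocc : ∀ c j, ((1, j, c) : Vx) ∈ Y → ((1, j, 0) : Vx) ∈ Y := by
    intro c
    induction c with
    | zero => intro j h; exact h
    | succ c ih =>
      intro j h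
      obtain ⟨u, hu, hA⟩ := hpre _ h
      rcases p1 hA with h1 | ⟨_, rfl⟩ | ⟨h1, _⟩
      · exact absurd h1 (h0' u hu)
      · exact ih j hu
      · omega
  have hend : ∀ j, ((1, j, 0) : Vx) ∈ Y → j < φ.length ∧ ((2, 4 * j + 3, r) : Vx) ∈ Y := by
    intro j h
    obtain ⟨u, hu, hA⟩ := hpre _ h
    rcases p1 hA with h1 | ⟨h1, _⟩ | ⟨_, h1, rfl⟩
    · exact absurd h1 (h0' u hu)
    · omega
    · exact ⟨h1, hu⟩
  have hup : ∀ m s q, r - s = m → ((2, q, s) : Vx) ∈ Y → ∃ j, ((1, j, 0) : Vx) ∈ Y := by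
    intro m
    induction m with
    | zero =>
      intro s q hs h
      obtain ⟨u, hu, hA⟩ := hsuc _ h
      rcases s2 hA with h1 | h1 | h1 | ⟨j, _, rfl⟩ | ⟨h1, _⟩
      · exact absurd h1 (h3' u hu)
      · exact absurd h1 (h4' u hu)
      · exact absurd h1 (h0' u hu)
      · exact ⟨j, hu⟩
      · omega
    | succ m ih =>
      intro s q hs h
      obtain ⟨u, hu, hA⟩ := hsuc _ h
      rcases s2 hA with h1 | h1 | h1 | ⟨j, _, rfl⟩ | ⟨h1, rfl⟩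
      · exact absurd h1 (h3' u hu)
      · exact absurd h1 (h4' u hu)
      · exact absurd h1 (h0' u hu)
      · exact ⟨j, hu⟩
      · exact ih (s + 1) q (by omega) hu
  have hex : ∃ j, ((1, j, 0) : Vx) ∈ Y := by
    obtain ⟨u, hu, hA⟩ := hsuc _ hv0
    have h1 := kinds hA
    obtain ⟨a, b, c⟩ := v0
    simp only at h1
    have h5 := h0' _ hv0
    have h6 := h3' _ hv0
    have h7 := h4' _ hv0
    simp only at h5 h6 h7
    rcases (by omega : a = 1 ∨ a = 2) with rfl | rfl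
    · exact ⟨b, hocc c b hv0⟩
    · exact hup _ c b rfl hv0
  obtain ⟨j, hj0⟩ := hex
  obtain ⟨hj, hjr⟩ := hend j hj0
  obtain ⟨j', h | h | h | h⟩ := hlast _ hjr
  · exfalso; omega
  · exfalso; omega
  · exfalso; omega
  · have hjj : j' = j := by omega
    rw [hjj] at h
    have hj1 : ((1, j, 1) : Vx) ∈ Y := by
      obtain ⟨u, hu, hA⟩ := hpre _ h.2
      rcases p1 hA with h1 | ⟨_, rfl⟩ | ⟨h1, _⟩
      · exact absurd h1 (h0' u hu)
      · exact hu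
      · omega
    refine hmono (hK.con3 j hj) (Set.union_subset (hdn _ hjr) ?_)
    rintro w (rfl | rfl | rfl)
    · exact hj0
    · exact hj1
    · exact h.2

end Pool.Agent.R334.SD
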